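import Pool.Agent.MP_057a77_an.Defs

namespace Pool.Agent.MP_057a77_an

open Complex

/-- ramp -/
noncomputable def ramp (t : ℝ) : ℝ := max t 0

lemma ramp_half (t a : ℝ) : ramp (t / 2 - a) = ramp (t - 2 * a) / 2 := by
  unfold ramp
  rcases le_total (t - 2 * a) 0 with h | h
  · rw [max_eq_right h, max_eq_right (by linarith)]; simp
  · rw [max_eq_left h, max_eq_left (by linarith)]; ring

lemma ramp_cont : Continuous ramp := by unfold ramp; fun_prop

/-- hat function on `[0,2]` -/
noncomputable def hat (t : ℝ) : ℝ := ramp t - 2 * ramp (t - 1) + ramp (t - 2)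

/-- trapezoid on `[0,4]` -/
noncomputable def trap (t : ℝ) : ℝ := (ramp t - ramp (t - 1) - ramp (t - 3) + ramp (t - 4)) / 3

lemma trap_eq (t : ℝ) : trap t = (hat t + hat (t - 1) + hat (t - 2)) / 3 := by
  unfold trap hat
  have h1 : t - 1 - 1 = t - 2 := by ring
  have h2 : t - 1 - 2 = t - 3 := by ring
  have h3 : t - 2 - 1 = t - 3 := by ring
  have h4 : t - 2 - 2 = t - 4 := by ring
  rw [h1, h2, h3, h4]; ring

lemma hat_of_le {t : ℝ} (h : t ≤ 0) : hat t = 0 := by
  unfold hat ramp
  rw [max_eq_right h, max_eq_right (by linarith), max_eq_right (by linarith)]; ring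

lemma hat_of_ge {t : ℝ} (h : 2 ≤ t) : hat t = 0 := by
  unfold hat ramp
  rw [max_eq_left (by linarith), max_eq_left (by linarith), max_eq_left (by linarith)]; ring

lemma trap_of_le {t : ℝ} (h : t ≤ 0) : trap t = 0 := by
  rw [trap_eq, hat_of_le h, hat_of_le (by linarith), hat_of_le (by linarith)]; ring

lemma trap_of_ge {t : ℝ} (h : 4 ≤ t) : trap t = 0 := by
  rw [trap_eq, hat_of_ge (by linarith), hat_of_ge (by linarith), hat_of_ge (by linarith)]; ring

lemma trap_mid {t : ℝ} (h : 1 ≤ t) (h' : t ≤ 3) : trap t = 1 / 3 := by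
  unfold trap ramp
  rw [max_eq_left (by linarith), max_eq_left (by linarith), max_eq_right (by linarith),
    max_eq_right (by linarith)]; ring

lemma hat_nonneg (t : ℝ) : 0 ≤ hat t := by
  unfold hat ramp
  rcases le_total t 0 with h | h
  · rw [max_eq_right h, max_eq_right (by linarith), max_eq_right (by linarith)]; linarith
  rcases le_total t 1 with h1 | h1
  · rw [max_eq_left h, max_eq_right (by linarith), max_eq_right (by linarith)]; linarith
  rcases le_total t 2 with h2 | h2
  · rw [max_eq_left h, max_eq_left (by linarith), max_eq_right (by linarith)]; linarith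
  · rw [max_eq_left h, max_eq_left (by linarith), max_eq_left (by linarith)]; linarith

lemma trap_nonneg (t : ℝ) : 0 ≤ trap t := by
  rw [trap_eq]
  have := hat_nonneg t
  have := hat_nonneg (t - 1)
  have := hat_nonneg (t - 2)
  positivity

lemma trap_cont : Continuous trap := by
  unfold trap
  have := ramp_cont
  fun_prop

lemma trap_refine (t : ℝ) :
    trap (t / 2) = (trap t + trap (t - 1) + trap (t - 3) + trap (t - 4)) / 2 := by
  unfold trap
  have e0 : ramp (t / 2) = ramp t / 2 := by simpa using ramp_half t 0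
  rw [e0, ramp_half, ramp_half, ramp_half]
  have h1 : t - 1 - 1 = t - 2 * 1 := by ring
  have h2 : t - 1 - 3 = t - 4 := by ring
  have h3 : t - 1 - 4 = t - 5 := by ring
  have h4 : t - 3 - 1 = t - 4 := by ring
  have h5 : t - 3 - 3 = t - 2 * 3 := by ring
  have h6 : t - 3 - 4 = t - 7 := by ring
  have h7 : t - 4 - 1 = t - 5 := by ring
  have h8 : t - 4 - 3 = t - 7 := by ring
  have h9 : t - 4 - 4 = t - 2 * 4 := by ring
  rw [h1, h2, h3, h4, h5, h6, h7, h8, h9]; ring

/-- the complex-valued trapezoid -/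
noncomputable def trapC (t : ℝ) : ℂ := (trap t : ℂ)

/-- the mask of `(1 + z) (1 + z ^ 3) / 2` -/
noncomputable def trapMask : ℤ →₀ ℂ :=
  Finsupp.onFinset {0, 1, 3, 4} (fun k => if k = 0 ∨ k = 1 ∨ k = 3 ∨ k = 4 then 1 / 2 else 0) (by
    intro k hk
    by_contra h
    simp only [Finset.mem_insert, Finset.mem_singleton] at h
    exact hk (if_neg h))

lemma trapMask_apply (k : ℤ) :
    trapMask k = if k = 0 ∨ k = 1 ∨ k = 3 ∨ k = 4 then 1 / 2 else 0 := rfl

lemma trapMask_support : trapMask.support = {0, 1, 3, 4} := by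
  ext k
  rw [Finsupp.mem_support_iff, trapMask_apply]
  simp only [Finset.mem_insert, Finset.mem_singleton]
  split_ifs with h
  · simp [h]
  · simp [h]

lemma sum_trapMask (f : ℤ → ℂ) :
    ∑ k ∈ trapMask.support, trapMask k * f k = (f 0 + f 1 + f 3 + f 4) / 2 := by
  rw [trapMask_support]
  rw [Finset.sum_insert (by decide), Finset.sum_insert (by decide), Finset.sum_insert (by decide),
    Finset.sum_singleton]
  simp only [trapMask_apply]
  norm_num
  ring

lemma trapC_refinable : IsRefinable trapC trapMask := by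
  refine ⟨?_, ?_, ?_, ?_⟩
  · intro h
    have := congrFun h 2
    simp only [trapC, Pi.zero_apply, trap_mid (t := 2) (by norm_num) (by norm_num)] at this
    norm_num at this
  · unfold trapC
    exact Complex.continuous_ofReal.comp trap_cont
  · apply HasCompactSupport.intro (isCompact_Icc (a := (0 : ℝ)) (b := 4))
    intro x hx
    simp only [Set.mem_Icc, not_and_or, not_le] at hx
    rcases hx with hx | hx
    · simp [trapC, trap_of_le hx.le]
    · simp [trapC, trap_of_ge hx.le]
  · intro t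
    rw [sum_trapMask (fun k => trapC (t - k))]
    simp only [trapC, trap_refine]
    push_cast
    simp

lemma symbol_trapMask (ξ : ℝ) :
    symbol trapMask ξ = (1 + Complex.exp (2 * Real.pi * I * ξ)) *
      (1 + Complex.exp (2 * Real.pi * I * ξ) ^ 3) / 2 := by
  unfold symbol
  rw [sum_trapMask (fun k => Complex.exp (2 * Real.pi * I * k * ξ))]
  have h (n : ℕ) : Complex.exp (2 * Real.pi * I * ((n : ℤ) : ℂ) * ξ) =
      Complex.exp (2 * Real.pi * I * ξ) ^ n := by
    rw [← Complex.exp_nat_mul]; congr 1; push_cast; ring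
  have h0 := h 0
  have h1 := h 1
  have h3 := h 3
  have h4 := h 4
  simp only [Nat.cast_ofNat, Nat.cast_zero, Nat.cast_one] at h0 h1 h3 h4
  rw [h0, h1, h3, h4]; ring

lemma trapMask_no_symm (ξ : ℝ) :
    ¬ (symbol trapMask ξ = 0 ∧ symbol trapMask (ξ + 1 / 2) = 0) := by
  rw [symbol_trapMask, symbol_trapMask]
  have h : Complex.exp (2 * Real.pi * I * ((ξ + 1 / 2 : ℝ) : ℂ)) =
      - Complex.exp (2 * Real.pi * I * ξ) := by
    have : (2 * Real.pi * I * ((ξ + 1 / 2 : ℝ) : ℂ)) = 2 * Real.pi * I * ξ + Real.pi * I := by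
      push_cast; ring
    rw [this, Complex.exp_add, Complex.exp_pi_mul_I]; ring
  rw [h]
  set z := Complex.exp (2 * Real.pi * I * ξ)
  rintro ⟨h1, h2⟩
  have a1 : 1 + z ^ 3 = 0 := by
    rcases mul_eq_zero.mp (by linear_combination 2 * h1 : (1 + z) * (1 + z ^ 3) = 0) with h | h
    · have : z = -1 := by linear_combination h
      rw [this]; ring
    · exact h
  have a2 : 1 - z ^ 3 = 0 := by
    rcases mul_eq_zero.mp (by linear_combination 2 * h2 : (1 - z) * (1 - z ^ 3) = 0) with h | h
    · have : z = 1 := by linear_combination -h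
      rw [this]; ring
    · exact h
  have : (2 : ℂ) = 0 := by linear_combination a1 + a2
  norm_num at this

lemma symbol_trapMask_zero : symbol trapMask 0 = 2 := by
  rw [symbol_trapMask]; simp; norm_num

lemma summable_hat (t ξ : ℝ) (c : ℝ) :
    Summable fun k : ℤ => (hat (t + k - c) : ℂ) * Complex.exp (2 * Real.pi * I * k * ξ) := by
  apply summable_of_ne_finset_zero (s := Finset.Icc ⌊c - t⌋ (⌈c - t⌉ + 2))
  intro k hk
  simp only [Finset.mem_Icc, not_and_or, not_le] at hk
  rcases hk with hk | hk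
  · have : (k : ℝ) ≤ c - t := by
      have h1 : (k : ℝ) ≤ ⌊c - t⌋ := by exact_mod_cast hk.le
      exact h1.trans (Int.floor_le _)
    rw [hat_of_le (by linarith)]; simp
  · have : c - t + 2 ≤ (k : ℝ) := by
      have h1 : ((⌈c - t⌉ + 2 : ℤ) : ℝ) ≤ k := by exact_mod_cast hk.le
      push_cast at h1
      linarith [Int.le_ceil (c - t)]
    rw [hat_of_ge (by linarith)]; simp

lemma zak_trapC_third (t : ℝ) : zak trapC t (1 / 3) = 0 := by
  unfold zak
  set ω : ℂ := Complex.exp (2 * Real.pi * I / 3) with hω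
  have hω3 : ω ^ 3 = 1 := by
    rw [hω, ← Complex.exp_nat_mul]
    have : ((3 : ℕ) : ℂ) * (2 * Real.pi * I / 3) = 2 * Real.pi * I := by push_cast; ring
    rw [this, Complex.exp_two_pi_mul_I]
  have hω1 : ω ≠ 1 := by
    rw [hω]
    intro h
    rw [Complex.exp_eq_one_iff] at h
    obtain ⟨n, hn⟩ := h
    have h2 : (2 * Real.pi * I : ℂ) ≠ 0 := Complex.two_pi_I_ne_zero
    have : (1 : ℂ) = 3 * n := by
      apply mul_left_cancel₀ h2
      linear_combination 3 * hn
    have h3 : (1 : ℤ) = 3 * n := by exact_mod_cast this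
    omega
  have hs : 1 + ω + ω ^ 2 = 0 := by
    have : (ω - 1) * (1 + ω + ω ^ 2) = 0 := by linear_combination hω3
    exact (mul_eq_zero.mp this).resolve_left (sub_ne_zero.mpr hω1)
  set e : ℤ → ℂ := fun k => Complex.exp (2 * Real.pi * I * k * ((1 / 3 : ℝ) : ℂ)) with he
  have hes (k : ℤ) : e (k + 1) = ω * e k := by
    simp only [he, hω, ← Complex.exp_add]; congr 1; push_cast; ring
  set A : ℂ := ∑' k : ℤ, (hat (t + k - 0) : ℂ) * e k with hA
  have hshift (c : ℝ) : ∑' k : ℤ, (hat (t + k - (c + 1)) : ℂ) * e k =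
      ω * ∑' k : ℤ, (hat (t + k - c) : ℂ) * e k := by
    rw [← (Equiv.addRight (1 : ℤ)).tsum_eq, ← tsum_mul_left]
    apply tsum_congr
    intro k
    simp only [Equiv.coe_addRight, hes]
    have : t + ((k + 1 : ℤ) : ℝ) - (c + 1) = t + k - c := by push_cast; ring
    rw [this]; ring
  have h1 : ∑' k : ℤ, (hat (t + k - 1) : ℂ) * e k = ω * A := by
    have := hshift 0
    rw [zero_add] at this; exact this
  have h2 : ∑' k : ℤ, (hat (t + k - 2) : ℂ) * e k = ω * (ω * A) := by
    have := hshift 1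
    rw [h1, show (1 : ℝ) + 1 = 2 by norm_num] at this; exact this
  have s0 := summable_hat t (1 / 3) 0
  have s1 := summable_hat t (1 / 3) 1
  have s2 := summable_hat t (1 / 3) 2
  have key : ∑' k : ℤ, trapC (t + k) * e k = (1 / 3) * (A + ω * A + ω * (ω * A)) := by
    rw [← h2, ← h1, hA, ← s0.tsum_add s1, ← (s0.add s1).tsum_add s2, ← tsum_mul_left]
    apply tsum_congr
    intro k
    simp only [trapC, trap_eq, sub_zero, he]
    push_cast; ring
  show ∑' k : ℤ, trapC (t + k) * e k = 0
  rw [key]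
  linear_combination (A / 3) * hs

/-- explicit subdivision rule, even indices -/
lemma subdiv_even (j : ℕ) (n : ℤ) :
    subdiv trapMask (j + 1) (2 * n) = (subdiv trapMask j n + subdiv trapMask j (n - 2)) / 2 := by
  show ∑' k : ℤ, trapMask (2 * n - 2 * k) * subdiv trapMask j k = _
  rw [tsum_eq_sum (s := {n, n - 2})]
  · rw [Finset.sum_pair (by omega)]
    simp only [trapMask_apply]
    rw [if_pos (by omega), if_pos (by omega)]; ring
  · intro k hk
    simp only [Finset.mem_insert, Finset.mem_singleton, not_or] at hk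
    rw [trapMask_apply, if_neg (by omega)]; simp

lemma subdiv_odd (j : ℕ) (n : ℤ) :
    subdiv trapMask (j + 1) (2 * n + 1) =
      (subdiv trapMask j n + subdiv trapMask j (n - 1)) / 2 := by
  show ∑' k : ℤ, trapMask (2 * n + 1 - 2 * k) * subdiv trapMask j k = _
  rw [tsum_eq_sum (s := {n, n - 1})]
  · rw [Finset.sum_pair (by omega)]
    simp only [trapMask_apply]
    rw [if_pos (by omega), if_pos (by omega)]; ring
  · intro k hk
    simp only [Finset.mem_insert, Finset.mem_singleton, not_or] at hk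
    rw [trapMask_apply, if_neg (by omega)]; simp

lemma subdiv_diff (j : ℕ) (n : ℤ) :
    ‖subdiv trapMask j n - subdiv trapMask j (n - 1)‖ ≤ 1 / 2 ^ j := by
  induction j generalizing n with
  | zero =>
    simp only [subdiv]
    split_ifs with h1 h2 h2
    · omega
    · simp
    · simp
    · simp
  | succ j ih =>
    rcases Int.even_or_odd' n with ⟨m, rfl | rfl⟩
    · have e : 2 * m - 1 = 2 * (m - 1) + 1 := by ring
      rw [e, subdiv_even, subdiv_odd]
      have e2 : m - 1 - 1 = m - 2 := by ring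
      rw [e2]
      have : (subdiv trapMask j m + subdiv trapMask j (m - 2)) / 2 -
          (subdiv trapMask j (m - 1) + subdiv trapMask j (m - 2)) / 2 =
          (subdiv trapMask j m - subdiv trapMask j (m - 1)) / 2 := by ring
      rw [this, norm_div, pow_succ]
      have := ih m
      simp only [Complex.norm_ofNat]
      rw [← div_div]; linarith
    · have e : 2 * m + 1 - 1 = 2 * m := by ring
      rw [e, subdiv_even, subdiv_odd]
      have : (subdiv trapMask j m + subdiv trapMask j (m - 1)) / 2 -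
          (subdiv trapMask j m + subdiv trapMask j (m - 2)) / 2 =
          (subdiv trapMask j (m - 1) - subdiv trapMask j (m - 1 - 1)) / 2 := by
        have e2 : m - 1 - 1 = m - 2 := by ring
        rw [e2]; ring
      rw [this, norm_div, pow_succ]
      have := ih (m - 1)
      simp only [Complex.norm_ofNat]
      rw [← div_div]; linarith

/-- the other recursion for the subdivision sequence -/
lemma subdiv_succ' (j : ℕ) (n : ℤ) :
    subdiv trapMask (j + 1) n = (subdiv trapMask j n + subdiv trapMask j (n - 2 ^ j) +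
      subdiv trapMask j (n - 3 * 2 ^ j) + subdiv trapMask j (n - 4 * 2 ^ j)) / 2 := by
  induction j generalizing n with
  | zero =>
    rcases Int.even_or_odd' n with ⟨m, rfl | rfl⟩
    · rw [subdiv_even]
      simp only [subdiv]
      have a1 : ¬ (2 * m - 2 ^ 0 = 0) := by omega
      have a2 : ¬ (2 * m - 3 * 2 ^ 0 = 0) := by omega
      have a3 : (2 * m = 0) ↔ m = 0 := by omega
      have a4 : (2 * m - 4 * 2 ^ 0 = 0) ↔ m - 2 = 0 := by omega
      simp only [a1, a2, a3, a4, if_false]; ring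
    · rw [subdiv_odd]
      simp only [subdiv]
      have a1 : (2 * m + 1 - 2 ^ 0 = 0) ↔ m = 0 := by omega
      have a2 : (2 * m + 1 - 3 * 2 ^ 0 = 0) ↔ m - 1 = 0 := by omega
      have a3 : ¬ (2 * m + 1 = 0) := by omega
      have a4 : ¬ (2 * m + 1 - 4 * 2 ^ 0 = 0) := by omega
      simp only [a1, a2, a3, a4, if_false]; ring
  | succ j ih =>
    rcases Int.even_or_odd' n with ⟨m, rfl | rfl⟩
    · have b1 : 2 * m - 2 ^ (j + 1) = 2 * (m - 2 ^ j) := by ring
      have b2 : 2 * m - 3 * 2 ^ (j + 1) = 2 * (m - 3 * 2 ^ j) := by ring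
      have b3 : 2 * m - 4 * 2 ^ (j + 1) = 2 * (m - 4 * 2 ^ j) := by ring
      rw [b1, b2, b3, subdiv_even (j + 1), ih m, ih (m - 2), subdiv_even, subdiv_even, subdiv_even,
        subdiv_even]
      have c1 : m - 2 - 2 ^ j = m - 2 ^ j - 2 := by ring
      have c2 : m - 2 - 3 * 2 ^ j = m - 3 * 2 ^ j - 2 := by ring
      have c3 : m - 2 - 4 * 2 ^ j = m - 4 * 2 ^ j - 2 := by ring
      rw [c1, c2, c3]; ring
    · have b1 : 2 * m + 1 - 2 ^ (j + 1) = 2 * (m - 2 ^ j) + 1 := by ring
      have b2 : 2 * m + 1 - 3 * 2 ^ (j + 1) = 2 * (m - 3 * 2 ^ j) + 1 := by ring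
      have b3 : 2 * m + 1 - 4 * 2 ^ (j + 1) = 2 * (m - 4 * 2 ^ j) + 1 := by ring
      rw [b1, b2, b3, subdiv_odd (j + 1), ih m, ih (m - 1), subdiv_odd, subdiv_odd, subdiv_odd,
        subdiv_odd]
      have c1 : m - 1 - 2 ^ j = m - 2 ^ j - 1 := by ring
      have c2 : m - 1 - 3 * 2 ^ j = m - 3 * 2 ^ j - 1 := by ring
      have c3 : m - 1 - 4 * 2 ^ j = m - 4 * 2 ^ j - 1 := by ring
      rw [c1, c2, c3]; ring

lemma trapC_dyadic (j : ℕ) (n : ℤ) :
    trapC (n / 2 ^ j) = (subdiv trapMask j (n - 1) + subdiv trapMask j (n - 2) +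
      subdiv trapMask j (n - 3)) / 3 := by
  induction j generalizing n with
  | zero =>
    simp only [subdiv, pow_zero, div_one, trapC]
    by_cases h0 : n ≤ 0
    · rw [trap_of_le (by exact_mod_cast h0), if_neg (by omega), if_neg (by omega),
        if_neg (by omega)]; simp
    by_cases h4 : 4 ≤ n
    · rw [trap_of_ge (by exact_mod_cast h4), if_neg (by omega), if_neg (by omega),
        if_neg (by omega)]; simp
    rw [trap_mid (by exact_mod_cast (by omega : 1 ≤ n)) (by exact_mod_cast (by omega : n ≤ 3))]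
    have : n = 1 ∨ n = 2 ∨ n = 3 := by omega
    rcases this with rfl | rfl | rfl <;> norm_num
  | succ j ih =>
    have e : (n : ℝ) / 2 ^ (j + 1) = (n / 2 ^ j) / 2 := by rw [pow_succ, div_div]
    have hp : (2 : ℝ) ^ j ≠ 0 := by positivity
    have f (c : ℤ) : (n : ℝ) / 2 ^ j - c = ((n - c * 2 ^ j : ℤ) : ℝ) / 2 ^ j := by
      push_cast; field_simp
    have r := trapC_refinable.2.2.2 (n / 2 ^ j)
    rw [sum_trapMask (fun k => trapC (n / 2 ^ j - k))] at r
    rw [e, r, f, f, f, f, ih, ih, ih, ih, subdiv_succ', subdiv_succ', subdiv_succ']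
    have c (a b : ℤ) : n - a * 2 ^ j - b = n - b - a * 2 ^ j := by ring
    simp only [c, zero_mul, sub_zero, one_mul]
    have c' (b : ℤ) : n - 2 ^ j - b = n - b - 2 ^ j := by ring
    simp only [c']
    ring

lemma subdiv_close (j : ℕ) (n : ℤ) :
    ‖subdiv trapMask j n - trapC (n / 2 ^ j)‖ ≤ 2 / 2 ^ j := by
  rw [trapC_dyadic]
  have h1 := subdiv_diff j n
  have h2 := subdiv_diff j (n - 1)
  have h3 := subdiv_diff j (n - 2)
  rw [show n - 1 - 1 = n - 2 by ring] at h2
  rw [show n - 2 - 1 = n - 3 by ring] at h3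
  set a := subdiv trapMask j n
  set b := subdiv trapMask j (n - 1)
  set c := subdiv trapMask j (n - 2)
  set d := subdiv trapMask j (n - 3)
  have : a - (b + c + d) / 3 = (a - b) + (2 / 3) * (b - c) + (1 / 3) * (c - d) := by ring
  rw [this]
  calc ‖(a - b) + (2 / 3) * (b - c) + (1 / 3) * (c - d)‖
      ≤ ‖a - b‖ + ‖(2 / 3) * (b - c)‖ + ‖(1 / 3) * (c - d)‖ := norm_add₃_le
    _ = ‖a - b‖ + (2 / 3) * ‖b - c‖ + (1 / 3) * ‖c - d‖ := by
        simp only [norm_mul, norm_div, Complex.norm_ofNat, norm_one]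
    _ ≤ 1 / 2 ^ j + (2 / 3) * (1 / 2 ^ j) + (1 / 3) * (1 / 2 ^ j) := by gcongr
    _ = 2 / 2 ^ j := by ring

lemma subdiv_converges (ε : ℝ) (hε : 0 < ε) :
    ∃ J : ℕ, ∀ j ≥ J, ∀ n : ℤ, ‖subdiv trapMask j n - trapC (n / 2 ^ j)‖ ≤ ε := by
  obtain ⟨J, hJ⟩ := exists_pow_lt_of_lt_one (half_pos hε) (show (1 / 2 : ℝ) < 1 by norm_num)
  refine ⟨J, fun j hj n => (subdiv_close j n).trans ?_⟩
  have : (1 / 2 : ℝ) ^ j ≤ (1 / 2) ^ J := pow_le_pow_of_le_one (by norm_num) (by norm_num) hj
  rw [one_div_pow] at this hJ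
  have e : (2 : ℝ) / 2 ^ j = 2 * (1 / 2 ^ j) := by ring
  rw [one_div_pow] at this
  rw [e]; linarith

end Pool.Agent.MP_057a77_an
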