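import Mathlib

/-!
Definitions for the Zak transform of refinable functions.
-/

namespace Pool.Agent.MP_057a77_an

open Complex

/-- The Zak transform `Z f (t, ξ) = ∑_{k ∈ ℤ} f (t + k) e^{2 π i k ξ}`. -/
noncomputable def zak (f : ℝ → ℂ) (t ξ : ℝ) : ℂ :=
  ∑' k : ℤ, f (t + k) * Complex.exp (2 * Real.pi * Complex.I * k * ξ)

/-- The symbol `D (ξ) = ∑_k d_k e^{2 π i k ξ}` of a finitely supported mask `d`. -/
noncomputable def symbol (d : ℤ →₀ ℂ) (ξ : ℝ) : ℂ :=
  ∑ k ∈ d.support, d k * Complex.exp (2 * Real.pi * Complex.I * k * ξ)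

/-- `φ` is nonzero, continuous, compactly supported and satisfies the dilation equation
`φ (t / 2) = ∑_k d_k φ (t - k)` with the finitely supported mask `d`. -/
def IsRefinable (φ : ℝ → ℂ) (d : ℤ →₀ ℂ) : Prop :=
  φ ≠ 0 ∧ Continuous φ ∧ HasCompactSupport φ ∧
    ∀ t : ℝ, φ (t / 2) = ∑ k ∈ d.support, d k * φ (t - k)

/-- The binary subdivision scheme of the mask `d` started from the unit impulse:
`g^0 = δ`, `g^{j+1}_n = ∑_k d_{n - 2 k} g^j_k`. -/
noncomputable def subdiv (d : ℤ →₀ ℂ) : ℕ → ℤ → ℂ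
  | 0 => fun n => if n = 0 then 1 else 0
  | j + 1 => fun n => ∑' k : ℤ, d (n - 2 * k) * subdiv d j k

end Pool.Agent.MP_057a77_an
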